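import Pool.Agent.W712.RP.Stm

/-!
# Project RP, task RP-EFC
-/

set_option autoImplicit false

open MeasureTheory Set Filter Topology
open scoped ENNReal

namespace Pool.Agent.W521.RP

open Pool.Agent.W712.RP

theorem body_pos {E : Type} [NormedAddCommGroup E] [NormedSpace ℝ E]
    [MeasurableSpace E] [BorelSpace E] (μ : Measure E) [μ.IsOpenPosMeasure] {L : Set E}
    (hL : Body L) : μ L ≠ 0 := by
  have h := isOpen_interior.measure_pos μ hL.interior_nonempty
  exact (h.trans_le (measure_mono interior_subset)).ne'

theorem unif_prob {E : Type} [NormedAddCommGroup E] [NormedSpace ℝ E] [FiniteDimensional ℝ E]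
    [MeasurableSpace E] [BorelSpace E] (μ : Measure E) [μ.IsAddHaarMeasure] {L : Set E}
    (hL : Body L) : IsProbabilityMeasure (unif μ L) := by
  constructor
  have h1 : μ L ≠ 0 := body_pos μ hL
  have h2 : μ L ≠ ∞ := hL.compact.measure_ne_top
  simp only [unif, Measure.smul_apply, Measure.restrict_apply MeasurableSet.univ, univ_inter,
    smul_eq_mul]
  exact ENNReal.inv_mul_cancel h1 h2

theorem efc : S_VX → S_MH → S_EFC := by
  intro hVX hMH E _ _ _ _ _ μ _ L hL n i
  have := unif_prob μ hL
  have hmeas : MeasurableSet {q : E × (Fin n → E) | q.1 ∉ convexHull ℝ (Set.range q.2)} := by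
    have h := (hMH E n).preimage (continuous_swap (X := E) (Y := Fin n → E))
    have h2 := h.measurableSet.compl
    exact h2
  have hmp := measurePreserving_piFinSuccAbove (fun _ : Fin (n + 1) => unif μ L) i
  have hset : {x : Fin (n + 1) → E | FaceSet x {i}} =
      (MeasurableEquiv.piFinSuccAbove (fun _ : Fin (n + 1) => E) i) ⁻¹'
        {q : E × (Fin n → E) | q.1 ∉ convexHull ℝ (Set.range q.2)} := by
    ext x
    rw [mem_preimage, mem_ofPred_eq, mem_ofPred_eq, hVX E n x i]
    rfl
  unfold faceP outP
  rw [hset, hmp.measure_preimage hmeas.nullMeasurableSet, Measure.prod_apply hmeas]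
  rfl

end Pool.Agent.W521.RP
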