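import Pool.Agent.W712.RP.Stm

/-!
# Project RP, task RP-L4
-/

set_option autoImplicit false

open MeasureTheory Set Filter Topology
open scoped ENNReal Pointwise

namespace Pool.Agent.W521.RP

open Pool.Agent.W712.RP

/-- the piece of the body (centred at `0`) seen from `0` through the patch -/
def Gam {k : ℕ} (K0 : Set (EuclideanSpace ℝ (Fin k))) (y₀ : EuclideanSpace ℝ (Fin k)) (r : ℝ) :
    Set (EuclideanSpace ℝ (Fin k)) :=
  {y | y ≠ 0 ∧ gauge K0 y < 1 ∧ dist ((gauge K0 y)⁻¹ • y) y₀ < r}

theorem l4 : S_L4 := by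
  intro k hk K hK x₀ p₀ hx₀ hp₀ r hr
  classical
  set K0 : Set (EuclideanSpace ℝ (Fin k)) := (fun y => x₀ + y) ⁻¹' K with hK0
  have hhomeo : ∀ y, y ∈ K0 ↔ x₀ + y ∈ K := fun y => Iff.rfl
  have hconv : Convex ℝ K0 := hK.convex.translate_preimage_right x₀
  have hpre : K0 = (Homeomorph.addLeft x₀) ⁻¹' K := rfl
  have hcomp : IsCompact K0 := by
    rw [hpre]
    exact (Homeomorph.addLeft x₀).isCompact_preimage.2 hK.compact
  have hint : ∀ y, y ∈ interior K0 ↔ x₀ + y ∈ interior K := by
    intro y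
    rw [hpre, ← (Homeomorph.addLeft x₀).preimage_interior]
    rfl
  have hfr : ∀ y, y ∈ frontier K0 ↔ x₀ + y ∈ frontier K := by
    intro y
    rw [hpre, ← (Homeomorph.addLeft x₀).preimage_frontier]
    rfl
  have hnhds : K0 ∈ 𝓝 (0 : EuclideanSpace ℝ (Fin k)) := by
    rw [mem_nhds_iff]
    refine ⟨interior K0, interior_subset, isOpen_interior, ?_⟩
    rw [hint, add_zero]
    exact hx₀
  have habs : Absorbent ℝ K0 := absorbent_nhds_zero hnhds
  have hbdd : Bornology.IsVonNBounded ℝ K0 :=
    NormedSpace.isVonNBounded_of_isBounded ℝ hcomp.isBounded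
  have hgc : Continuous (gauge K0) := continuous_gauge hconv hnhds
  have hgpos : ∀ y, y ≠ 0 → 0 < gauge K0 y := fun y hy => (gauge_pos habs hbdd).2 hy
  have hg1 : ∀ y, gauge K0 y < 1 ↔ y ∈ interior K0 := fun y =>
    gauge_lt_one_iff_mem_interior hconv hnhds
  have hgf : ∀ y, gauge K0 y = 1 ↔ y ∈ frontier K0 := fun y =>
    gauge_eq_one_iff_mem_frontier hconv hnhds
  set y₀ := p₀ - x₀ with hy₀
  have hy₀f : y₀ ∈ frontier K0 := by
    rw [hfr, hy₀, add_sub_cancel]; exact hp₀
  have hgy₀ : gauge K0 y₀ = 1 := (hgf _).2 hy₀f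
  have hy₀ne : y₀ ≠ 0 := by
    intro h
    rw [h, gauge_zero] at hgy₀
    exact zero_ne_one hgy₀
  set Γ := Gam K0 y₀ r with hΓ
  have hΓopen : IsOpen Γ := by
    have h1 : ContinuousOn (fun y => (gauge K0 y)⁻¹ • y) {y : EuclideanSpace ℝ (Fin k) | y ≠ 0} := by
      refine ContinuousOn.smul (hgc.continuousOn.inv₀ fun y hy => (hgpos y hy).ne')
        continuousOn_id
    have h2 := h1.isOpen_inter_preimage isOpen_ne (Metric.isOpen_ball (x := y₀) (ε := r))
    have h3 : IsOpen {y | gauge K0 y < 1} := isOpen_lt hgc continuous_const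
    have e : Γ = {y | gauge K0 y < 1} ∩ ({y : EuclideanSpace ℝ (Fin k) | y ≠ 0} ∩
        (fun y => (gauge K0 y)⁻¹ • y) ⁻¹' Metric.ball y₀ r) := by
      ext y
      simp only [hΓ, Gam, mem_inter_iff, mem_preimage, Metric.mem_ball, mem_ofPred_eq]
      tauto
    rw [e]
    exact h3.inter h2
  have hΓne : Γ.Nonempty := by
    refine ⟨(1 / 2 : ℝ) • y₀, ?_, ?_, ?_⟩
    · exact smul_ne_zero (by norm_num) hy₀ne
    · rw [gauge_smul_of_nonneg (by norm_num), hgy₀]
      norm_num
    · rw [gauge_smul_of_nonneg (by norm_num), hgy₀, smul_eq_mul, mul_one, smul_smul]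
      norm_num
      exact hr
  have hΓK : ∀ y ∈ Γ, y ∈ interior K0 := fun y hy => (hg1 y).1 hy.2.1
  have hΓsub : Γ ⊆ K0 := fun y hy => interior_subset (hΓK y hy)
  have hvol0 : (volume K0 : ℝ≥0∞) ≠ ∞ := hcomp.measure_ne_top
  have hV0 : (0 : ℝ≥0∞) < volume Γ := hΓopen.measure_pos volume hΓne
  have hVt : volume Γ ≠ ∞ := ((measure_mono hΓsub).trans_lt hvol0.lt_top).ne
  have hvolK : volume K0 = volume K := by
    rw [hK0]
    exact measure_preimage_add volume x₀ K
  have hKpos : volume K ≠ 0 := by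
    rw [← hvolK]
    exact (hV0.trans_le (measure_mono hΓsub)).ne'
  have hKtop : volume K ≠ ∞ := hK.compact.measure_ne_top
  -- the function
  let T : EuclideanSpace ℝ (Fin k) → ℝ := fun z =>
    if z - x₀ ∈ Γ then 1 - gauge K0 (z - x₀) else 2
  have hTm : Measurable T := by
    refine Measurable.ite ?_ ?_ measurable_const
    · exact (measurable_id.sub_const x₀) hΓopen.measurableSet
    · exact measurable_const.sub (hgc.measurable.comp (measurable_id.sub_const x₀))
  set c : ℝ := (volume Γ / volume K).toReal with hc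
  have hquot : volume Γ / volume K ≠ ∞ := ENNReal.div_ne_top hVt hKpos
  refine ⟨T, c, hTm, ?_, ?_, ?_, ?_⟩
  · rw [hc]
    exact ENNReal.toReal_pos (ENNReal.div_ne_zero.2 ⟨hV0.ne', hKtop⟩) hquot
  · intro z
    simp only [T]
    split_ifs with h
    · linarith [h.2.1]
    · norm_num
  · intro s hs hs1
    have hKm : MeasurableSet K := hK.compact.isClosed.measurableSet
    -- the mass
    have hset : {z | T z ≤ s} ∩ K = (fun z => z + (-x₀)) ⁻¹' {y | y ∈ Γ ∧ 1 - s ≤ gauge K0 y} := by
      ext z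
      simp only [T, mem_inter_iff, mem_ofPred_eq, mem_preimage, ← sub_eq_add_neg]
      constructor
      · rintro ⟨h, -⟩
        split_ifs at h with h1
        · exact ⟨h1, by linarith⟩
        · linarith
      · rintro ⟨h1, h2⟩
        rw [if_pos h1]
        refine ⟨by linarith, ?_⟩
        have := hΓsub h1
        rw [hhomeo, add_sub_cancel] at this
        exact this
    have hu : unif volume K {z | T z ≤ s} =
        (volume K)⁻¹ * volume {y | y ∈ Γ ∧ 1 - s ≤ gauge K0 y} := by
      simp only [unif, Measure.smul_apply, smul_eq_mul]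
      rw [Measure.restrict_apply' hKm, hset, measure_preimage_add_right]
    rw [hu]
    have hsmall : volume {y | y ∈ Γ ∧ gauge K0 y < 1 - s} ≤
        ENNReal.ofReal (1 - s) * volume Γ := by
      rcases eq_or_lt_of_le hs1 with h1 | h1
      · have : {y | y ∈ Γ ∧ gauge K0 y < 1 - s} = ∅ := by
          ext y
          simp only [mem_ofPred_eq, mem_empty_iff_false, iff_false, not_and, not_lt]
          intro hy
          rw [h1, sub_self]
          exact (hgpos y hy.1).le
        rw [this, measure_empty]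
        exact zero_le
      · have ht : 0 < 1 - s := by linarith
        have hsub : {y | y ∈ Γ ∧ gauge K0 y < 1 - s} ⊆ (1 - s) • Γ := by
          rintro y ⟨hy, hy2⟩
          rw [Set.mem_smul_set_iff_inv_smul_mem₀ ht.ne']
          have hg : gauge K0 ((1 - s)⁻¹ • y) = (1 - s)⁻¹ * gauge K0 y := by
            rw [gauge_smul_of_nonneg (by positivity), smul_eq_mul]
          refine ⟨smul_ne_zero (by positivity) hy.1, ?_, ?_⟩
          · rw [hg, inv_mul_lt_iff₀ ht, mul_one]
            exact hy2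
          · rw [hg, smul_smul]
            have hgp := (hgpos y hy.1).ne'
            have e : ((1 - s)⁻¹ * gauge K0 y)⁻¹ * (1 - s)⁻¹ = (gauge K0 y)⁻¹ := by
              field_simp
            rw [e]
            exact hy.2.2
        refine (measure_mono hsub).trans ?_
        rw [Measure.addHaar_smul]
        refine mul_le_mul_left (ENNReal.ofReal_le_ofReal ?_) _
        rw [finrank_euclideanSpace, Fintype.card_fin, abs_of_nonneg (by positivity)]
        calc (1 - s) ^ k ≤ (1 - s) ^ 1 := pow_le_pow_of_le_one ht.le (by linarith) hk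
          _ = 1 - s := pow_one _
    have hbig : ENNReal.ofReal s * volume Γ ≤ volume {y | y ∈ Γ ∧ 1 - s ≤ gauge K0 y} := by
      have h1 : volume Γ ≤ volume {y | y ∈ Γ ∧ 1 - s ≤ gauge K0 y} +
          volume {y | y ∈ Γ ∧ gauge K0 y < 1 - s} := by
        refine (measure_mono ?_).trans (measure_union_le _ _)
        intro y hy
        rcases le_or_gt (1 - s) (gauge K0 y) with h | h
        · exact Or.inl ⟨hy, h⟩
        · exact Or.inr ⟨hy, h⟩
      have h2 : ENNReal.ofReal s * volume Γ + ENNReal.ofReal (1 - s) * volume Γ = volume Γ := by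
        rw [← add_mul, ← ENNReal.ofReal_add hs.le (by linarith)]
        simp
      have h3 : ENNReal.ofReal s * volume Γ + ENNReal.ofReal (1 - s) * volume Γ ≤
          volume {y | y ∈ Γ ∧ 1 - s ≤ gauge K0 y} + ENNReal.ofReal (1 - s) * volume Γ := by
        rw [h2]
        exact h1.trans (add_le_add le_rfl hsmall)
      exact (ENNReal.add_le_add_iff_right (ENNReal.mul_ne_top ENNReal.ofReal_ne_top hVt)).1 h3
    have hcv : ENNReal.ofReal (c * s) = (volume K)⁻¹ * (ENNReal.ofReal s * volume Γ) := by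
      rw [ENNReal.ofReal_mul ENNReal.toReal_nonneg, ENNReal.ofReal_toReal hquot,
        div_eq_mul_inv]
      ring
    rw [hcv]
    exact mul_le_mul_right hbig _
  · intro z hz hT
    simp only [T] at hT ⊢
    by_cases h1 : z - x₀ ∈ Γ
    · rw [if_pos h1]
      have hgp := hgpos _ h1.1
      refine ⟨x₀ + (gauge K0 (z - x₀))⁻¹ • (z - x₀), ?_, ?_, ?_⟩
      · rw [← hfr, ← hgf, gauge_smul_of_nonneg (by positivity), smul_eq_mul,
          inv_mul_cancel₀ hgp.ne']
      · have h2 := h1.2.2
        rw [hy₀] at h2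
        have e : x₀ + (gauge K0 (z - x₀))⁻¹ • (z - x₀) - p₀ =
            (gauge K0 (z - x₀))⁻¹ • (z - x₀) - (p₀ - x₀) := by abel
        rw [dist_eq_norm, e, ← dist_eq_norm]
        exact h2
      · rw [sub_sub_cancel, add_sub_cancel_left, smul_smul, mul_inv_cancel₀ hgp.ne', one_smul,
          add_sub_cancel]
    · rw [if_neg h1] at hT
      norm_num at hT

end Pool.Agent.W521.RP
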