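import Pool.Agent.W712.RP.Stm

/-!
# Project RP, tasks RP-MH and RP-MF
-/

set_option autoImplicit false

open MeasureTheory Set Filter Topology
open scoped ENNReal

namespace Pool.Agent.W521.RP

open Pool.Agent.W712.RP

theorem mem_hull_iff {E : Type} [NormedAddCommGroup E] [NormedSpace ℝ E] {n : ℕ}
    (x : Fin n → E) (z : E) :
    z ∈ convexHull ℝ (Set.range x) ↔ ∃ w : Fin n → ℝ, w ∈ stdSimplex ℝ (Fin n) ∧
      ∑ i, w i • x i = z := by
  rw [convexHull_range_eq_exists_affineCombination]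
  constructor
  · rintro ⟨s, w, hw0, hw1, rfl⟩
    refine ⟨fun i => if i ∈ s then w i else 0, ⟨fun i => ?_, ?_⟩, ?_⟩
    · by_cases h : i ∈ s
      · simp only [h, if_true]; exact hw0 i h
      · simp [h]
    · simpa using hw1
    · rw [Finset.affineCombination_eq_linear_combination _ _ _ hw1]
      simp only [ite_smul, zero_smul]
      rw [Finset.sum_ite_mem, Finset.univ_inter]
  · rintro ⟨w, hw, rfl⟩
    refine ⟨Finset.univ, w, fun i _ => hw.1 i, hw.2, ?_⟩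
    rw [Finset.affineCombination_eq_linear_combination _ _ _ hw.2]

theorem mh : S_MH := by
  intro E _ _ _ n
  have hc : IsCompact (stdSimplex ℝ (Fin n)) := isCompact_stdSimplex ℝ (Fin n)
  have : CompactSpace (stdSimplex ℝ (Fin n)) := isCompact_iff_compactSpace.1 hc
  have hcl : IsClosed {q : ((Fin n → E) × E) × stdSimplex ℝ (Fin n) |
      ∑ i, (q.2 : Fin n → ℝ) i • q.1.1 i = q.1.2} := by
    refine isClosed_eq ?_ (by fun_prop)
    exact continuous_finsetSum _ fun i _ =>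
      ((continuous_apply i).comp (continuous_subtype_val.comp continuous_snd)).smul
        ((continuous_apply i).comp (continuous_fst.comp continuous_fst))
  have h := isClosedMap_fst_of_compactSpace (X := (Fin n → E) × E)
    (Y := stdSimplex ℝ (Fin n)) _ hcl
  convert h using 1
  ext p
  simp only [mem_ofPred_eq, mem_image, Prod.exists]
  rw [mem_hull_iff]
  constructor
  · rintro ⟨w, hw, he⟩
    exact ⟨p.1, p.2, ⟨w, hw⟩, he, rfl⟩
  · rintro ⟨a, b, w, he, rfl⟩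
    exact ⟨w, w.2, he⟩

theorem mf : S_MF := by
  intro E _ _ _ _ _ n I
  have key : {x : Fin n → E | FaceSet x I} = ⋃ N : ℕ, {x : Fin n → E | ∃ q : (E →L[ℝ] ℝ) × ℝ,
      q ∈ Metric.closedBall (0 : E →L[ℝ] ℝ) N ×ˢ Metric.closedBall (0 : ℝ) N ∧
      (∀ i ∈ I, q.1 (x i) = q.2) ∧ ∀ k, k ∉ I → q.1 (x k) ≤ q.2 - 1 / ((N : ℝ) + 1)} := by
    ext x
    simp only [mem_ofPred_eq, mem_iUnion]
    constructor
    · rintro ⟨l, c, h1, h2⟩
      -- uniform margin
      have hm : ∃ ε : ℝ, 0 < ε ∧ ∀ k, k ∉ I → l (x k) ≤ c - ε := by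
        by_cases hne : (Finset.univ.filter (fun k => k ∉ I)).Nonempty
        · obtain ⟨k0, hk0, hk⟩ := Finset.exists_max_image
            (Finset.univ.filter (fun k => k ∉ I)) (fun k => l (x k)) hne
          refine ⟨c - l (x k0), sub_pos.2 (h2 k0 (Finset.mem_filter.1 hk0).2), fun k hkI => ?_⟩
          have := hk k (Finset.mem_filter.2 ⟨Finset.mem_univ _, hkI⟩)
          linarith
        · refine ⟨1, one_pos, fun k hkI => absurd ?_ hne⟩
          exact ⟨k, Finset.mem_filter.2 ⟨Finset.mem_univ _, hkI⟩⟩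
      obtain ⟨ε, hε, hk⟩ := hm
      obtain ⟨N1, hN1⟩ := exists_nat_gt (1 / ε)
      obtain ⟨N2, hN2⟩ := exists_nat_gt ‖l‖
      obtain ⟨N3, hN3⟩ := exists_nat_gt ‖c‖
      refine ⟨N1 + N2 + N3, (l, c), ⟨?_, ?_⟩, h1, fun k hkI => ?_⟩
      · rw [mem_closedBall_zero_iff]
        push_cast
        have : (0 : ℝ) ≤ N1 := Nat.cast_nonneg _
        have : (0 : ℝ) ≤ N3 := Nat.cast_nonneg _
        linarith
      · rw [mem_closedBall_zero_iff]
        push_cast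
        have : (0 : ℝ) ≤ N1 := Nat.cast_nonneg _
        have : (0 : ℝ) ≤ N2 := Nat.cast_nonneg _
        linarith
      · refine (hk k hkI).trans ?_
        have h3 : 1 / (((N1 + N2 + N3 : ℕ) : ℝ) + 1) ≤ ε := by
          rw [div_le_iff₀ (by positivity)]
          rw [div_lt_iff₀ hε] at hN1
          push_cast
          have : (0 : ℝ) ≤ N3 := Nat.cast_nonneg _
          have : (0 : ℝ) ≤ N2 := Nat.cast_nonneg _
          nlinarith
        linarith
    · rintro ⟨N, q, -, h1, h2⟩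
      refine ⟨q.1, q.2, h1, fun k hk => (h2 k hk).trans_lt ?_⟩
      have : (0 : ℝ) < 1 / ((N : ℝ) + 1) := by positivity
      linarith
  rw [key]
  refine MeasurableSet.iUnion fun N => ?_
  apply IsClosed.measurableSet
  have : CompactSpace (Metric.closedBall (0 : E →L[ℝ] ℝ) N ×ˢ Metric.closedBall (0 : ℝ) N :
      Set ((E →L[ℝ] ℝ) × ℝ)) :=
    isCompact_iff_compactSpace.1 ((isCompact_closedBall _ _).prod (isCompact_closedBall _ _))
  have hcl : IsClosed {p : (Fin n → E) × (Metric.closedBall (0 : E →L[ℝ] ℝ) N ×ˢ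
      Metric.closedBall (0 : ℝ) N : Set ((E →L[ℝ] ℝ) × ℝ)) |
      (∀ i ∈ I, (p.2 : (E →L[ℝ] ℝ) × ℝ).1 (p.1 i) = (p.2 : (E →L[ℝ] ℝ) × ℝ).2) ∧
      ∀ k, k ∉ I → (p.2 : (E →L[ℝ] ℝ) × ℝ).1 (p.1 k) ≤
        (p.2 : (E →L[ℝ] ℝ) × ℝ).2 - 1 / ((N : ℝ) + 1)} := by
    have hev : ∀ i : Fin n, Continuous (fun p : (Fin n → E) ×
        (Metric.closedBall (0 : E →L[ℝ] ℝ) N ×ˢ
        Metric.closedBall (0 : ℝ) N : Set ((E →L[ℝ] ℝ) × ℝ)) =>
        (p.2 : (E →L[ℝ] ℝ) × ℝ).1 (p.1 i)) := by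
      intro i
      exact (continuous_fst.comp (continuous_subtype_val.comp continuous_snd)).clm_apply
        ((continuous_apply i).comp continuous_fst)
    have h2 : Continuous (fun p : (Fin n → E) ×
        (Metric.closedBall (0 : E →L[ℝ] ℝ) N ×ˢ
        Metric.closedBall (0 : ℝ) N : Set ((E →L[ℝ] ℝ) × ℝ)) =>
        (p.2 : (E →L[ℝ] ℝ) × ℝ).2) := continuous_snd.comp
          (continuous_subtype_val.comp continuous_snd)
    have e : {p : (Fin n → E) × (Metric.closedBall (0 : E →L[ℝ] ℝ) N ×ˢ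
      Metric.closedBall (0 : ℝ) N : Set ((E →L[ℝ] ℝ) × ℝ)) |
      (∀ i ∈ I, (p.2 : (E →L[ℝ] ℝ) × ℝ).1 (p.1 i) = (p.2 : (E →L[ℝ] ℝ) × ℝ).2) ∧
      ∀ k, k ∉ I → (p.2 : (E →L[ℝ] ℝ) × ℝ).1 (p.1 k) ≤
        (p.2 : (E →L[ℝ] ℝ) × ℝ).2 - 1 / ((N : ℝ) + 1)} =
      (⋂ i ∈ I, {p | (p.2 : (E →L[ℝ] ℝ) × ℝ).1 (p.1 i) = (p.2 : (E →L[ℝ] ℝ) × ℝ).2}) ∩
      ⋂ k, ⋂ (_ : k ∉ I), {p | (p.2 : (E →L[ℝ] ℝ) × ℝ).1 (p.1 k) ≤
        (p.2 : (E →L[ℝ] ℝ) × ℝ).2 - 1 / ((N : ℝ) + 1)} := by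
      ext p
      simp only [mem_ofPred_eq, mem_inter_iff, mem_iInter]
    rw [e]
    refine IsClosed.inter ?_ ?_
    · exact isClosed_biInter fun i _ => isClosed_eq (hev i) h2
    · exact isClosed_iInter fun k => isClosed_iInter fun _ =>
        isClosed_le (hev k) (h2.sub continuous_const)
  have h := isClosedMap_fst_of_compactSpace _ hcl
  convert h using 1
  ext x
  simp only [mem_ofPred_eq, mem_image, Prod.exists, Subtype.exists]
  constructor
  · rintro ⟨l, c, hq, h1, h2⟩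
    exact ⟨x, l, c, hq, ⟨h1, h2⟩, rfl⟩
  · rintro ⟨a, l, c, hq, ⟨h1, h2⟩, rfl⟩
    exact ⟨l, c, hq, h1, h2⟩

end Pool.Agent.W521.RP
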